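import Mathlib
import Pool.Agent.Helper6.SunSeq

set_option autoImplicit false

namespace Pool.Agent.Results.MP_d51828_nt.Integrality

/-- If `a 1 = 2` and `(2n+1)^3 a_n = 32 n^3 a_{n-1} + (21n^3+22n^2+8n+1) * binom(2n-1,n)^4`
for all `n ≥ 2`, then `a_n` is a positive integer for every `n ≥ 1`. -/
theorem result (a : ℕ → ℚ) (h1 : a 1 = 2)
    (hrec : ∀ n : ℕ, 2 ≤ n → (2 * (n : ℚ) + 1) ^ 3 * a n = 32 * (n : ℚ) ^ 3 * a (n - 1) +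
      (21 * (n : ℚ) ^ 3 + 22 * (n : ℚ) ^ 2 + 8 * n + 1) * ((2 * n - 1).choose n : ℚ) ^ 4) :
    ∀ n : ℕ, 1 ≤ n → ∃ m : ℤ, 0 < m ∧ a n = m := by
  intro n hn
  obtain ⟨m, hm⟩ := Pool.Agent.Helper6.SunSeq.integral a h1 hrec n hn
  have hp := Pool.Agent.Helper6.SunSeq.pos a h1 hrec n hn
  refine ⟨m, ?_, hm⟩
  rw [hm] at hp
  exact_mod_cast hp

end Pool.Agent.Results.MP_d51828_nt.Integrality
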